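import Mathlib
import Pool.Agent.Zk46.US.Defs

/-! # A union of cheap sets of slopes is not useful -/

set_option autoImplicit false

namespace Pool.Agent.Zk59.US

open Finset
open Pool.Agent.R470.AK
open Pool.Agent.Zk73.AK
open Pool.Agent.Zk46.US

lemma num (b : ℕ) (hb : 0 < b) (κ : ℝ) (hκ : κ * (8 * b - 1) < 8 * b) (C : ℝ) :
    ∃ K₀ : ℕ, ∀ K : ℕ, K₀ ≤ K → ∀ B : ℕ, 1 ≤ B → B ^ 2 ≤ 2 ^ (2 ^ K * (24 * b - 3)) →
      C * (B : ℝ) ^ κ < ((2 ^ (12 * b * 2 ^ K) : ℕ) : ℝ) := by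
  have hbR : (1 : ℝ) ≤ b := by exact_mod_cast hb
  have hl2 : 0 < Real.log 2 := Real.log_pos (by norm_num)
  set κ' : ℝ := max κ 0 with hκ'
  have hκ0 : 0 ≤ κ' := le_max_right _ _
  have hκ1 : κ' * (8 * b - 1) < 8 * b := by
    rcases le_total κ 0 with h | h
    · rw [hκ', max_eq_right h, zero_mul]
      linarith
    · rw [hκ', max_eq_left h]
      exact hκ
  set θ : ℝ := 12 * b - κ' * ((24 * b - 3) / 2) with hθ
  have hθ0 : 0 < θ := by
    have : θ = 3 / 2 * (8 * b - κ' * (8 * b - 1)) := by rw [hθ]; ring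
    rw [this]
    have := sub_pos.2 hκ1
    positivity
  have hgr : Filter.Tendsto (fun K : ℕ => Real.exp (θ * Real.log 2 * (2 : ℝ) ^ K))
      Filter.atTop Filter.atTop :=
    Real.tendsto_exp_atTop.comp (Filter.Tendsto.const_mul_atTop (mul_pos hθ0 hl2)
      (tendsto_pow_atTop_atTop_of_one_lt (by norm_num)))
  obtain ⟨K₀, hK₀⟩ := Filter.eventually_atTop.1 (hgr.eventually (Filter.eventually_gt_atTop C))
  refine ⟨K₀, fun K hK B hB1 hB => ?_⟩
  have h1 := hK₀ K hK
  have hBR : (1 : ℝ) ≤ B := by exact_mod_cast hB1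
  have hB0 : (0 : ℝ) < B := by linarith
  have h2 : Real.log B ≤ (24 * b - 3) / 2 * (2 : ℝ) ^ K * Real.log 2 := by
    have h3 : (B : ℝ) ^ 2 ≤ 2 ^ (2 ^ K * (24 * b - 3)) := by exact_mod_cast hB
    have h4 := Real.log_le_log (by positivity) h3
    rw [Real.log_pow, Real.log_pow] at h4
    push_cast [Nat.cast_sub (show 3 ≤ 24 * b by omega)] at h4
    linarith
  have h3 : (B : ℝ) ^ κ ≤ Real.exp (κ' * ((24 * b - 3) / 2) * (2 : ℝ) ^ K * Real.log 2) := by
    refine (Real.rpow_le_rpow_of_exponent_le hBR (le_max_left κ 0)).trans ?_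
    rw [← hκ', Real.rpow_def_of_pos hB0, Real.exp_le_exp]
    have := mul_le_mul_of_nonneg_left h2 hκ0
    linarith
  have h4 : ((2 ^ (12 * b * 2 ^ K) : ℕ) : ℝ) = Real.exp (θ * Real.log 2 * (2 : ℝ) ^ K) *
      Real.exp (κ' * ((24 * b - 3) / 2) * (2 : ℝ) ^ K * Real.log 2) := by
    rw [← Real.exp_add]
    have h5 : ((2 ^ (12 * b * 2 ^ K) : ℕ) : ℝ) =
        Real.exp (((12 * b * 2 ^ K : ℕ) : ℝ) * Real.log 2) := by
      rw [Real.exp_nat_mul, Real.exp_log (by norm_num), Nat.cast_pow, Nat.cast_ofNat]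
    rw [h5]
    congr 1
    push_cast
    rw [hθ]
    ring
  rw [h4]
  have h5 : (0 : ℝ) ≤ (B : ℝ) ^ κ := by positivity
  rcases le_or_gt C 0 with hC | hC
  · exact lt_of_le_of_lt (mul_nonpos_of_nonpos_of_nonneg hC h5)
      (mul_pos (Real.exp_pos _) (Real.exp_pos _))
  · exact (mul_le_mul_of_nonneg_left h3 hC.le).trans_lt
      (mul_lt_mul_of_pos_right h1 (Real.exp_pos _))

theorem not_useful {b : ℕ} (hb : 0 < b) (f : ℕ → Finset ℚ) (hf : ∀ i < b, Cheap (f i))
    (S : Finset ℚ) (hS : ∀ r ∈ S, ∃ i < b, r ∈ f i) (κ : ℝ) (hκ : κ * (8 * b - 1) < 8 * b) :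
    ¬ Useful κ S := by
  rintro ⟨C, hC⟩
  obtain ⟨K₀, hK₀⟩ := num b hb κ hκ C
  choose! k0 hk0 using hf
  set K : ℕ := max K₀ ((range b).sup k0) with hK
  have hKi : ∀ i < b, k0 i ≤ K := fun i hi =>
    (le_sup (f := k0) (mem_range.2 hi)).trans (le_max_right _ _)
  choose! A hA using fun i (hi : i < b) => hk0 i hi K (hKi i hi)
  obtain ⟨A', a0, a1, a2, a3⟩ := prods A b fun i hi => (hA i hi).1
  have e64 : (64 : ℕ) ^ 2 ^ K = 2 ^ (6 * 2 ^ K) := by
    rw [pow_mul]; norm_num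
  have e128 : (128 : ℕ) ^ 2 ^ K = 2 ^ (7 * 2 ^ K) := by
    rw [pow_mul]; norm_num
  have b1 : (proj (-1) A').card = 2 ^ (12 * b * 2 ^ K) := by
    rw [a1, prod_congr rfl fun i hi => (hA i (mem_range.1 hi)).2.1, prod_const, card_range, e64,
      ← pow_mul, ← pow_mul]
    congr 1
    ring
  have b2 : big S A' ^ 2 ≤ 2 ^ (2 ^ K * (24 * b - 3)) := by
    refine big_pow_le (by norm_num) ?_ ?_
    · refine (Nat.pow_le_pow_left a3 2).trans ?_
      rw [← prod_pow]
      refine (prod_le_prod' fun i hi => (hA i (mem_range.1 hi)).2.2.2.1).trans ?_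
      rw [prod_const, card_range, e128, ← pow_mul, ← pow_mul]
      refine Nat.pow_le_pow_right (by norm_num) ?_
      calc 7 * 2 ^ K * (3 * b) = 2 ^ K * (21 * b) := by ring
        _ ≤ 2 ^ K * (24 * b - 3) := Nat.mul_le_mul_left _ (by omega)
    · intro r hr
      obtain ⟨β, hβ, hrβ⟩ := hS r hr
      refine (Nat.pow_le_pow_left (a2 r) 2).trans ?_
      rw [← prod_pow]
      have h1 : ∀ i ∈ range b, (proj r (A i)).card ^ 2 ≤
          2 ^ (2 ^ K * (if i = β then 21 else 24)) := by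
        intro i hi
        split_ifs with hib
        · subst hib
          refine ((hA i hβ).2.2.2.2 r hrβ).trans (le_of_eq ?_)
          rw [e128, ← pow_mul]
          congr 1
          ring
        · refine (Nat.pow_le_pow_left ((hA i (mem_range.1 hi)).2.2.1 r) 2).trans (le_of_eq ?_)
          rw [e64, ← pow_mul, ← pow_mul]
          congr 1
          ring
      refine (prod_le_prod' h1).trans ?_
      rw [prod_pow_eq_pow_sum]
      refine Nat.pow_le_pow_right (by norm_num) (le_of_eq ?_)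
      rw [← mul_sum]
      congr 1
      have h2 : ∑ i ∈ range b, ((if i = β then 21 else 24) + if i = β then 3 else 0) =
          24 * b := by
        rw [sum_congr rfl fun i _ => (?_ : _ = 24), sum_const, card_range, smul_eq_mul, mul_comm]
        split_ifs <;> rfl
      rw [sum_add_distrib, sum_ite_eq' (range b) β, if_pos (mem_range.2 hβ)] at h2
      omega
  have h2 := hK₀ K (le_max_left _ _) _ (big_pos (S := S) a0) b2
  have h3 := hC A'
  rw [b1] at h3
  exact absurd h3 (not_le.2 h2)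

end Pool.Agent.Zk59.US
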